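import Pool.Agent.TMX.Stmts

/-!
# HM of the squad TMX (problem MP_b61ad0_an)

The h-maxima transform.
-/

set_option autoImplicit false

namespace Pool.Agent.TMX.H69

open Finset Pool.Agent.TMX

/-- the transform at one point -/
theorem exists_T (N : ℕ) (g : ℕ → ℝ) (ε : ℝ) (x : ℕ) : ∃ t : ℝ,
    (∃ Y, Y ≤ N ∧ t + ε ≤ g Y ∧ ∀ i, (x ≤ i ∧ i ≤ Y ∨ Y ≤ i ∧ i ≤ x) → t ≤ g i) ∧
    ∀ (y : ℕ) (s : ℝ), y ≤ N → s + ε ≤ g y →
      (∀ i, (x ≤ i ∧ i ≤ y ∨ y ≤ i ∧ i ≤ x) → s ≤ g i) → s ≤ t := by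
  obtain ⟨v, hv⟩ : ∃ v : ℕ → ℝ, ∀ y, v y = min (g y - ε) ((uIcc x y).inf' nonempty_uIcc g) :=
    ⟨_, fun _ => rfl⟩
  obtain ⟨Y, hY, hmax⟩ := exists_max_image (range (N + 1)) v ⟨0, by rw [mem_range]; omega⟩
  refine ⟨v Y, ⟨Y, by rw [mem_range] at hY; omega, ?_, ?_⟩, ?_⟩
  · have h1 : v Y ≤ g Y - ε := by
      rw [hv]
      exact min_le_left _ _
    linarith
  · intro i hi
    have h1 : v Y ≤ (uIcc x Y).inf' nonempty_uIcc g := by
      rw [hv]
      exact min_le_right _ _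
    exact h1.trans (inf'_le g (mem_uIcc'.2 hi))
  · intro y s hy hs hi
    have h1 : s ≤ v y := by
      rw [hv]
      refine le_min (by linarith) ?_
      rw [le_inf'_iff]
      intro i h
      exact hi i (mem_uIcc'.1 h)
    exact h1.trans (hmax y (by rw [mem_range]; omega))

/-- HM. -/
theorem hM : HM := by
  intro N g ε hg hε hdeep hno
  choose T0 hT1 hT2 using exists_T N g ε
  obtain ⟨T, hTle, hTgt⟩ : ∃ T : ℕ → ℝ, (∀ x, x ≤ N → T x = T0 x) ∧ ∀ x, N < x → T x = 0 := by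
    refine ⟨fun x => if x ≤ N then T0 x else 0, fun x hx => if_pos hx, fun x hx => if_neg ?_⟩
    omega
  have t1 : ∀ x, x ≤ N → ∃ Y, Y ≤ N ∧ T x + ε ≤ g Y ∧
      ∀ i, (x ≤ i ∧ i ≤ Y ∨ Y ≤ i ∧ i ≤ x) → T x ≤ g i := by
    intro x hx
    rw [hTle x hx]
    exact hT1 x
  have t2 : ∀ x, x ≤ N → ∀ (y : ℕ) (s : ℝ), y ≤ N → s + ε ≤ g y →
      (∀ i, (x ≤ i ∧ i ≤ y ∨ y ≤ i ∧ i ≤ x) → s ≤ g i) → s ≤ T x := by
    intro x hx
    rw [hTle x hx]
    exact hT2 x
  -- the maximisers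
  have t3 : ∀ x, x ≤ N → ∃ Y, Y ≤ N ∧ T x + ε ≤ g Y ∧
      ∀ v, (x ≤ v ∧ v ≤ Y ∨ Y ≤ v ∧ v ≤ x) → T x ≤ T v := by
    intro x hx
    obtain ⟨Y, hY, h1, h2⟩ := t1 x hx
    refine ⟨Y, hY, h1, ?_⟩
    intro v hv
    refine t2 v (by omega) Y (T x) hY h1 ?_
    intro i hi
    exact h2 i (by omega)
  -- the valleys
  have t4 : ∀ Y w, Y ≤ w → w ≤ N → T w + ε < g Y → ∃ W, Y ≤ W ∧ W ≤ w ∧ g W ≤ T w := by
    intro Y w hYw hw h1
    by_contra hcon
    push Not at hcon
    obtain ⟨W, hW, hmin⟩ := exists_min_image (Icc Y w) g ⟨Y, by rw [mem_Icc]; omega⟩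
    rw [mem_Icc] at hW
    have h2 := hcon W hW.1 hW.2
    have h3 : min (g Y - ε) (g W) ≤ T w := by
      refine t2 w hw Y _ (by omega) ?_ ?_
      · have := min_le_left (g Y - ε) (g W)
        linarith
      · intro i hi
        refine (min_le_right _ _).trans (hmin i ?_)
        rw [mem_Icc]
        omega
    have h4 : T w < min (g Y - ε) (g W) := lt_min (by linarith) h2
    linarith
  refine ⟨T, ?_, ?_, t3, t4, ?_⟩
  · intro i
    by_cases hi : i ≤ N
    · obtain ⟨a, b, c, d, e, hab, hbc, hcd, hde, he, h1, -⟩ := hdeep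
      refine t2 i hi a 0 (by omega) ?_ (fun j _ => hg j)
      have := hg b
      linarith
    · rw [hTgt i (by omega)]
  · intro i hi
    constructor
    · obtain ⟨Y, -, -, h2⟩ := t1 i hi
      refine h2 i ?_
      omega
    · have h1 : g i - ε ≤ T i := by
        refine t2 i hi i _ hi (by linarith) ?_
        intro j hj
        have hji : j = i := by omega
        rw [hji]
        linarith
      linarith
  · intro a b c d e hab hbc hcd hde he hba hbc' hdc hde'
    obtain ⟨A, hA, hA1, hA2⟩ := t3 a (by omega)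
    obtain ⟨C, hC, hC1, hC2⟩ := t3 c (by omega)
    obtain ⟨E, hE, hE1, hE2⟩ := t3 e he
    have hAb : A < b := by
      by_contra hcon
      have := hA2 b (by omega)
      linarith
    have hbC : b < C := by
      by_contra hcon
      have := hC2 b (by omega)
      linarith
    have hCd : C < d := by
      by_contra hcon
      have := hC2 d (by omega)
      linarith
    have hdE : d < E := by
      by_contra hcon
      have := hE2 d (by omega)
      linarith
    obtain ⟨B, hAB, hBb, hB⟩ := t4 A b hAb.le (by omega) (by linarith)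
    obtain ⟨D, hCD, hDd, hD⟩ := t4 C d hCd.le (by omega) (by linarith)
    have hAB' : A < B := by
      rcases eq_or_lt_of_le hAB with h | h
      · rw [← h] at hB
        linarith
      · exact h
    have hCD' : C < D := by
      rcases eq_or_lt_of_le hCD with h | h
      · rw [← h] at hD
        linarith
      · exact h
    obtain ⟨ε', h1, h2, h3, h4, h5⟩ : ∃ ε' : ℝ, ε < ε' ∧ ε' ≤ g A - g B ∧ ε' ≤ g C - g B ∧
        ε' ≤ g C - g D ∧ ε' ≤ g E - g D := by
      refine ⟨min (min (g A - g B) (g C - g B)) (min (g C - g D) (g E - g D)), ?_, ?_, ?_, ?_, ?_⟩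
      · refine lt_min (lt_min ?_ ?_) (lt_min ?_ ?_) <;> linarith
      · exact (min_le_left _ _).trans (min_le_left _ _)
      · exact (min_le_left _ _).trans (min_le_right _ _)
      · exact (min_le_right _ _).trans (min_le_left _ _)
      · exact (min_le_right _ _).trans (min_le_right _ _)
    exact hno ε' h1 ⟨A, B, C, D, E, hAB', by omega, hCD', by omega, hE, h2, h3, h4, h5⟩

end Pool.Agent.TMX.H69
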